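import Pool.Agent.H2.EA.Stm

/-!
# EA part HZ: a homogeneous polynomial of degree `< p` does not vanish off a hyperplane

If `Q` vanishes off the hyperplane `ℓ = 0`, then `R = Q ℓ` is homogeneous of degree `k ≤ p` and
vanishes everywhere.  For `k < p` it is zero.  For `k = p` the polynomial
`R - ∑ c_i (X_i^p - X_i)`, `c_i` the coefficient of `X_i^p`, has all degrees `< p` and vanishes
everywhere, so it is zero, and its coefficient of `X_i` is `c_i`.
-/

set_option autoImplicit false

open Finset Module MvPolynomial

namespace H43.EA

open H2.EA

variable {p : ℕ} [Fact p.Prime] {d : ℕ}

theorem zero_of_eval (R : MvPolynomial (Fin d) (ZMod p)) (h : ∀ x, eval x R = 0)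
    (hd : ∀ m ∈ R.support, ∀ i, m i ≤ p - 1) : R = 0 := by
  apply MvPolynomial.eq_zero_of_eval_eq_zero (Fin d) (ZMod p) R h
  rw [mem_restrictDegree, ZMod.card]
  exact hd

theorem exp_le {R : MvPolynomial (Fin d) (ZMod p)} {k : ℕ} (hR : R.IsHomogeneous k)
    {m : Fin d →₀ ℕ} (hm : m ∈ R.support) (i : Fin d) : m i ≤ k := by
  have h1 : m.degree = k := by
    have := hR (mem_support_iff.1 hm)
    rw [Finsupp.degree_eq_weight_one]; exact this
  rw [← h1]
  exact Finsupp.le_degree i m

theorem hom_zero {R : MvPolynomial (Fin d) (ZMod p)} {k : ℕ} (hR : R.IsHomogeneous k) (hk : k ≤ p)
    (h : ∀ x, eval x R = 0) : R = 0 := by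
  have hp := (Fact.out : p.Prime).two_le
  rcases Nat.lt_or_ge k p with hlt | hge
  · apply zero_of_eval R h
    intro m hm i
    have := exp_le hR hm i
    omega
  · have hkp : k = p := le_antisymm hk hge
    subst hkp
    let c : Fin d → ZMod k := fun i => R.coeff (Finsupp.single i k)
    let S : MvPolynomial (Fin d) (ZMod k) := R - ∑ i, (monomial (Finsupp.single i k) (c i) -
      monomial (Finsupp.single i 1) (c i))
    have hco : ∀ m, S.coeff m = R.coeff m - ∑ i, ((if Finsupp.single i k = m then c i else 0) -
        (if Finsupp.single i 1 = m then c i else 0)) := by
      intro m
      simp only [S, coeff_sub, coeff_sum, coeff_monomial]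
    have hS : S = 0 := by
      apply zero_of_eval S
      · intro x
        simp only [S, map_sub, map_sum, h x, eval_monomial]
        rw [zero_sub, neg_eq_zero]
        apply Finset.sum_eq_zero
        intro i _
        rw [Finsupp.prod_single_index (by simp), Finsupp.prod_single_index (by simp),
          ZMod.pow_card, pow_one, sub_self]
      · intro m hm i
        by_contra hc
        have hlt : k ≤ m i := by omega
        apply mem_support_iff.1 hm
        rw [hco]
        have h1 : ∀ j, (if Finsupp.single j 1 = m then c j else 0) = 0 := by
          intro j
          rw [if_neg]
          rintro rfl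
          have : (Finsupp.single j 1 : Fin d →₀ ℕ) i ≤ 1 := by
            rw [Finsupp.single_apply]; split_ifs <;> omega
          omega
        by_cases hms : m ∈ R.support
        · have h2 : m.degree = k := by
            have := hR (mem_support_iff.1 hms)
            rw [Finsupp.degree_eq_weight_one]; exact this
          have h3 : m = Finsupp.single i k := by
            ext j
            rw [Finsupp.single_apply]
            by_cases hij : i = j
            · subst hij
              rw [if_pos rfl]
              have := Finsupp.le_degree i m
              omega
            · rw [if_neg hij]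
              by_contra hj
              have h4 : m i + m j ≤ m.degree := by
                have := Finset.add_le_sum (f := fun a => m a) (s := m.support)
                  (fun _ _ => Nat.zero_le _) (i := i) (j := j)
                  (Finsupp.mem_support_iff.2 (by omega)) (Finsupp.mem_support_iff.2 hj) hij
                rw [Finsupp.degree_apply]; exact this
              omega
          rw [Finset.sum_eq_single i]
          · rw [h1, if_pos h3.symm, sub_zero]
            simp only [c]
            rw [← h3, sub_self]
          · intro j _ hj
            rw [h1, if_neg, sub_zero]
            rw [h3]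
            intro he
            have := congrArg (fun m => m i) he
            simp only [Finsupp.single_apply, if_neg hj, if_true] at this
            omega
          · intro hi
            exact absurd (Finset.mem_univ i) hi
        · rw [notMem_support_iff.1 hms, zero_sub, neg_eq_zero]
          apply Finset.sum_eq_zero
          intro j _
          rw [h1, sub_zero]
          split_ifs with hj
          · simp only [c]
            rw [hj]
            exact notMem_support_iff.1 hms
          · rfl
    have hc : ∀ i, c i = 0 := by
      intro i
      have h1 := hco (Finsupp.single i 1)
      rw [hS, coeff_zero] at h1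
      have h2 : R.coeff (Finsupp.single i 1) = 0 := by
        by_contra hne
        have := hR hne
        have h3 : (Finsupp.single i 1 : Fin d →₀ ℕ).degree = k := by
          rw [Finsupp.degree_eq_weight_one]; exact this
        rw [Finsupp.degree_single] at h3
        omega
      rw [h2, zero_sub, Finset.sum_eq_single i] at h1
      · rw [if_neg, if_pos rfl, zero_sub, neg_neg] at h1
        · exact h1.symm
        · intro he
          have := congrArg (fun m => m i) he
          simp only [Finsupp.single_eq_same] at this
          omega
      · intro j _ hj
        rw [if_neg, if_neg, sub_zero]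
        · intro he
          have := congrArg (fun m => m i) he
          simp [hj] at this
        · intro he
          have := congrArg (fun m => m i) he
          simp [hj] at this
      · intro hi
        exact absurd (Finset.mem_univ i) hi
    have h3 : S = R := by
      simp only [S, hc, map_zero, sub_self, Finset.sum_const_zero, sub_zero]
    rw [← h3, hS]

theorem t_HZ : S_HZ := by
  intro p _ d e Q hQ he hne z hz
  by_contra hcon
  push Not at hcon
  let l : MvPolynomial (Fin d) (ZMod p) := ∑ i, C (z i) * X i
  have hl : l.IsHomogeneous 1 := by
    apply IsHomogeneous.sum
    intro i _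
    simpa using (isHomogeneous_C (Fin d) (z i)).mul (isHomogeneous_X (ZMod p) i)
  have hle : ∀ x, eval x l = ∑ i, z i * x i := by
    intro x
    simp [l]
  have hl0 : l ≠ 0 := by
    intro h0
    apply hz
    funext i
    have := hle (Pi.single i 1)
    rw [h0, map_zero] at this
    simpa [Pi.single_apply] using this.symm
  have h1 : Q * l = 0 := by
    apply hom_zero (hQ.mul hl) he
    intro x
    rw [map_mul, hle]
    by_cases h0 : ∑ i, z i * x i = 0
    · rw [h0, mul_zero]
    · rw [hcon x h0, zero_mul]
  rcases mul_eq_zero.1 h1 with h | h
  · exact hne h
  · exact hl0 h

end H43.EA
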