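import Pool.Agent.H2.EA.Stm

/-!
# EA part IDX2: the degree over `v` in `G` and in a subgroup `K`

`S = stab v`, `T = S ⊓ K`, `T' = {g ∈ S : v [g, t] = 0 for t ∈ T}`.
`[T' : S'] ≤ [S : T]` since `g ↦ v [g, ·]` embeds `T'/S'` into the characters of `S` which are
constant on the cosets of `T`, and characters are linearly independent.
-/

set_option autoImplicit false

open Finset Module

namespace H43.EA

open H2.EA

variable {p : ℕ} [Fact p.Prime] {G A : Type} [Group G] [AddCommGroup A]
  [Module (ZMod p) A] (D : Dat p G A)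

/-- the elements of `stab v` orthogonal to `T` -/
def perp (v : A →ₗ[ZMod p] ZMod p) (T : Subgroup G) (_hT : T ≤ D.stab v) : Subgroup G where
  carrier := {g | g ∈ D.stab v ∧ ∀ h ∈ T, v (D.c g h) = 0}
  mul_mem' := by
    rintro g h ⟨hg, hg'⟩ ⟨hh, hh'⟩
    refine ⟨mul_mem hg hh, fun x hx => ?_⟩
    rw [D.c_mul_left, map_add, hg' x hx, (D.mem_stab.mp hg) _, hh' x hx, add_zero]
  one_mem' := ⟨one_mem _, fun x _ => by rw [D.c_one_left, map_zero]⟩
  inv_mem' := by
    rintro g ⟨hg, hg'⟩
    refine ⟨inv_mem hg, fun x hx => ?_⟩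
    have h := D.c_mul_left g g⁻¹ x
    rw [mul_inv_cancel, D.c_one_left] at h
    have h2 := congrArg v h
    rw [map_zero, map_add, hg' x hx, (D.mem_stab.mp hg) _, zero_add] at h2
    exact h2.symm

theorem mem_perp {v : A →ₗ[ZMod p] ZMod p} {T : Subgroup G} {hT : T ≤ D.stab v} {g : G} :
    g ∈ perp D v T hT ↔ g ∈ D.stab v ∧ ∀ h ∈ T, v (D.c g h) = 0 := Iff.rfl

/-- the character `h ↦ ψ (v [g, h])` of `stab v` -/
noncomputable def chr (v : A →ₗ[ZMod p] ZMod p) (g : G) : D.stab v →* ℂ where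
  toFun h := ZMod.stdAddChar (N := p) (v (D.c g h))
  map_one' := by simp [D.c_one_right]
  map_mul' := by
    intro x y
    rw [Subgroup.coe_mul, D.c_mul_right, map_add, (D.mem_stab.mp x.2) _, AddChar.map_add_eq_mul]

theorem chr_apply (v : A →ₗ[ZMod p] ZMod p) (g : G) (x : D.stab v) :
    chr D v g x = ZMod.stdAddChar (N := p) (v (D.c g x)) := rfl

theorem chr_eq {v : A →ₗ[ZMod p] ZMod p} {g g' : G} (hg : g ∈ D.stab v)
    (h : chr D v g = chr D v g') : ∀ x ∈ D.stab v, v (D.c (g⁻¹ * g') x) = 0 := by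
  intro x hx
  have h1 := DFunLike.congr_fun h ⟨x, hx⟩
  rw [chr_apply, chr_apply] at h1
  have h2 : v (D.c g x) = v (D.c g' x) := ZMod.injective_stdAddChar h1
  have h3 := D.c_mul_left g (g⁻¹ * g') x
  rw [mul_inv_cancel_left] at h3
  have h4 := congrArg v h3
  rw [map_add, (D.mem_stab.mp hg) _, ← h2] at h4
  exact (left_eq_add.1 h4)

theorem relIndex_le [Finite G] (v : A →ₗ[ZMod p] ZMod p) (T : Subgroup G) (hT : T ≤ D.stab v) :
    (D.radK ⊤ v).relIndex (perp D v T hT) ≤ T.relIndex (D.stab v) := by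
  classical
  set S := D.stab v with hS
  set P := perp D v T hT with hP
  set R := (D.radK ⊤ v).subgroupOf P with hR
  have : Fintype (P ⧸ R) := Fintype.ofFinite _
  have : Fintype (S ⧸ T.subgroupOf S) := Fintype.ofFinite _
  -- the function on the cosets
  let F : (P ⧸ R) → (S →* ℂ) := fun q => chr D v (Quotient.out q : P)
  have hF : Function.Injective F := by
    intro q q' h
    have h1 := chr_eq D (g := ((Quotient.out q : P) : G)) (g' := ((Quotient.out q' : P) : G))
      (Quotient.out q : P).2.1 h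
    rw [← Quotient.out_eq' q, ← Quotient.out_eq' q']
    rw [QuotientGroup.eq]
    refine Subgroup.mem_subgroupOf.2 ⟨⟨?_, Subgroup.mem_top _⟩, ?_⟩
    · have a1 : ((Quotient.out q : P) : G) ∈ D.stab v := (Quotient.out q : P).2.1
      have a2 : ((Quotient.out q' : P) : G) ∈ D.stab v := (Quotient.out q' : P).2.1
      exact (D.stab v).mul_mem ((D.stab v).inv_mem a1) a2
    · intro x hx
      exact h1 x hx.1
  have hlin : LinearIndependent ℂ (fun q => (F q : S → ℂ)) :=
    (linearIndependent_monoidHom S ℂ).comp F hF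
  let pull : ((S ⧸ T.subgroupOf S) → ℂ) →ₗ[ℂ] (S → ℂ) :=
    LinearMap.funLeft ℂ ℂ (fun x : S => (QuotientGroup.mk x : S ⧸ T.subgroupOf S))
  let f : (P ⧸ R) → ((S ⧸ T.subgroupOf S) → ℂ) := fun q x => F q (Quotient.out x)
  have hf : ∀ q, pull (f q) = (F q : S → ℂ) := by
    intro q
    funext x
    change F q (Quotient.out (QuotientGroup.mk x : S ⧸ T.subgroupOf S)) = F q x
    obtain ⟨t, ht⟩ := QuotientGroup.mk_out_eq_mul (T.subgroupOf S) x
    have h1 : (Quotient.out (QuotientGroup.mk x : S ⧸ T.subgroupOf S)) = x * t := ht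
    rw [h1, map_mul]
    have h2 : F q t = 1 := by
      have h3 := (Quotient.out q : P).2.2 (t : S) (Subgroup.mem_subgroupOf.1 t.2)
      change ZMod.stdAddChar (N := p) (v (D.c ((Quotient.out q : P) : G) (t : S))) = 1
      rw [h3, AddChar.map_zero_eq_one]
    rw [h2, mul_one]
  have hlin2 : LinearIndependent ℂ f := by
    apply LinearIndependent.of_comp pull
    have : (⇑pull ∘ f) = fun q => (F q : S → ℂ) := by
      funext q
      exact hf q
    rw [this]
    exact hlin
  have h5 := hlin2.fintype_card_le_finrank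
  rw [Module.finrank_fintype_fun_eq_card] at h5
  unfold Subgroup.relIndex Subgroup.index
  rw [Nat.card_eq_fintype_card, Nat.card_eq_fintype_card]
  exact h5

theorem t_IDX2 : S_IDX2 := by
  intro p _ G A _ _ _ _ D K v hK
  have e1 : D.stabK ⊤ v = D.stab v := inf_top_eq _
  have hTS : D.stabK K v ≤ D.stab v := inf_le_left
  have hTK : D.stabK K v ≤ K := inf_le_right
  have hRS : D.radK ⊤ v ≤ D.stab v := fun g hg => hg.1.1
  have hidx : (D.stab v).index * (D.stabK K v).relIndex (D.stab v) =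
      K.index * (D.stabK K v).relIndex K := by
    rw [mul_comm, Subgroup.relIndex_mul_index hTS, mul_comm, Subgroup.relIndex_mul_index hTK]
  constructor
  · unfold Dat.bsq Dat.bsqK
    rw [e1, Subgroup.relIndex_top_right]
    have h1 := relIndex_le D v (D.stabK K v) hTS
    have hRP : D.radK ⊤ v ≤ perp D v (D.stabK K v) hTS := fun g hg =>
      ⟨hg.1.1, fun h hh => hg.2 h ⟨hh.1, Subgroup.mem_top _⟩⟩
    have hPS : perp D v (D.stabK K v) hTS ≤ D.stab v := fun g hg => hg.1
    have h2 := Subgroup.relIndex_mul_relIndex _ _ _ hRP hPS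
    have hr : D.radK K v ≤ perp D v (D.stabK K v) hTS := fun g hg => ⟨hg.1.1, hg.2⟩
    have hr2 : D.radK K v ≤ D.stabK K v := fun g hg => hg.1
    have h3 : (perp D v (D.stabK K v) hTS).relIndex (D.stab v) ≤
        (D.radK K v).relIndex (D.stab v) := by
      rw [← Subgroup.relIndex_mul_relIndex _ _ _ hr hPS]
      exact Nat.le_mul_of_pos_left _ (Nat.pos_of_ne_zero Subgroup.FiniteIndex.index_ne_zero)
    have h4 := Subgroup.relIndex_mul_relIndex _ _ _ hr2 hTS
    calc (D.stab v).index ^ 2 * (D.radK ⊤ v).relIndex (D.stab v)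
        = (D.stab v).index ^ 2 * ((D.radK ⊤ v).relIndex (perp D v (D.stabK K v) hTS) *
            (perp D v (D.stabK K v) hTS).relIndex (D.stab v)) := by rw [h2]
      _ ≤ (D.stab v).index ^ 2 * ((D.stabK K v).relIndex (D.stab v) *
            ((D.radK K v).relIndex (D.stabK K v) * (D.stabK K v).relIndex (D.stab v))) := by
          rw [h4]
          gcongr
      _ = ((D.stab v).index * (D.stabK K v).relIndex (D.stab v)) ^ 2 *
            (D.radK K v).relIndex (D.stabK K v) := by ring
      _ = K.index ^ 2 * ((D.stabK K v).relIndex K ^ 2 * (D.radK K v).relIndex (D.stabK K v)) := by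
          rw [hidx]; ring
  · intro hle
    have e2 : D.stabK K v = D.stab v := inf_eq_left.2 hle
    have e3 : D.radK K v = D.radK ⊤ v := by
      ext g
      change (g ∈ D.stabK K v ∧ ∀ h ∈ D.stabK K v, v (D.c g h) = 0) ↔
        (g ∈ D.stabK ⊤ v ∧ ∀ h ∈ D.stabK ⊤ v, v (D.c g h) = 0)
      rw [e1, e2]
    unfold Dat.bsq Dat.bsqK
    rw [e3, e1, e2, Subgroup.relIndex_top_right, ← mul_assoc, ← mul_pow]
    rw [e2, Subgroup.relIndex_self, mul_one] at hidx
    rw [hidx]

end H43.EA
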