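import Pool.Agent.H2.EA.Stm

/-!
# EA part SC: semicontinuity of the rank
-/

set_option autoImplicit false

open Finset Module

namespace H43.EA

open H2.EA

/-- a matrix of rank `r` has constant matrices `P`, `Q` with `P A Q = 1` of size `r` -/
theorem exists_PQ {F J L : Type} [Field F] [Fintype J] [Fintype L] [DecidableEq J] [DecidableEq L]
    (A : Matrix J L F) (r : ℕ) (hr0 : A.rank = r) :
    ∃ (P : Matrix (Fin r) J F) (Q : Matrix L (Fin r) F), P * A * Q = 1 := by
  obtain ⟨f, hf⟩ : ∃ f : (L → F) →ₗ[F] (J → F), f = Matrix.toLin' A := ⟨_, rfl⟩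
  have hr : finrank F (LinearMap.range f) = finrank F (Fin r → F) := by
    rw [Module.finrank_fin_fun, ← hr0, Matrix.rank, hf]
    rfl
  let e : LinearMap.range f ≃ₗ[F] (Fin r → F) := LinearEquiv.ofFinrankEq _ _ hr
  have hs : LinearMap.range (e.toLinearMap ∘ₗ f.rangeRestrict) = ⊤ := by
    rw [LinearMap.range_comp, LinearMap.range_rangeRestrict, Submodule.map_top, LinearEquiv.range]
  obtain ⟨q, hq⟩ := LinearMap.exists_rightInverse_of_surjective _ hs
  obtain ⟨π, hπ⟩ := LinearMap.exists_leftInverse_of_injective (LinearMap.range f).subtype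
    (Submodule.ker_subtype _)
  have hcomp : (e.toLinearMap ∘ₗ π) ∘ₗ f ∘ₗ q = LinearMap.id := by
    refine LinearMap.ext fun y => ?_
    have e1 : π (f (q y)) = f.rangeRestrict (q y) := LinearMap.congr_fun hπ (f.rangeRestrict (q y))
    change e (π (f (q y))) = y
    rw [e1]
    exact LinearMap.congr_fun hq y
  refine ⟨LinearMap.toMatrix' (e.toLinearMap ∘ₗ π), LinearMap.toMatrix' q, ?_⟩
  have h2 : A = LinearMap.toMatrix' f := by rw [hf, LinearMap.toMatrix'_toLin']
  rw [h2, ← LinearMap.toMatrix'_comp, ← LinearMap.toMatrix'_comp, LinearMap.comp_assoc, hcomp,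
    LinearMap.toMatrix'_id]

theorem t_SC : S_SC := by
  intro p _ d J L _ _ _ _ M x
  obtain ⟨r, hr⟩ : ∃ r, (M.map (MvPolynomial.eval x)).rank = r := ⟨_, rfl⟩
  obtain ⟨P, Q, hPQ⟩ := exists_PQ (M.map (MvPolynomial.eval x)) r hr
  rw [hr]
  let P' : Matrix (Fin r) J (MvPolynomial (Fin d) (ZMod p)) := P.map MvPolynomial.C
  let Q' : Matrix L (Fin r) (MvPolynomial (Fin d) (ZMod p)) := Q.map MvPolynomial.C
  have h1 : MvPolynomial.eval x (P' * M * Q').det = 1 := by
    rw [RingHom.map_det]
    have : (MvPolynomial.eval x).mapMatrix (P' * M * Q') = 1 := by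
      have e1 : P'.map (MvPolynomial.eval x) = P := by
        ext i j; simp [P']
      have e2 : Q'.map (MvPolynomial.eval x) = Q := by
        ext i j; simp [Q']
      rw [RingHom.mapMatrix_apply, Matrix.map_mul, Matrix.map_mul, e1, e2]
      exact hPQ
    rw [this, Matrix.det_one]
  have h2 : (P' * M * Q').det ≠ 0 := by
    intro h0
    rw [h0, map_zero] at h1
    exact zero_ne_one h1
  let al := algebraMap (MvPolynomial (Fin d) (ZMod p)) (Fr p d)
  have h3 : ((P' * M * Q').map al).det ≠ 0 := by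
    rw [← RingHom.mapMatrix_apply, ← RingHom.map_det]
    intro h0
    exact h2 ((IsFractionRing.injective (MvPolynomial (Fin d) (ZMod p)) (Fr p d))
      (h0.trans (map_zero al).symm))
  have h4 : ((P' * M * Q').map al).rank = r := by
    have hu : IsUnit ((P' * M * Q').map al) :=
      (Matrix.isUnit_iff_isUnit_det _).2 (isUnit_iff_ne_zero.2 h3)
    rw [Matrix.rank_of_isUnit _ hu, Fintype.card_fin]
  have h5 : (P' * M * Q').map al = (P'.map al * M.map al) * Q'.map al := by
    rw [Matrix.map_mul, Matrix.map_mul]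
  rw [← h4, h5]
  exact (Matrix.rank_mul_le_left _ _).trans (Matrix.rank_mul_le_right _ _)

end H43.EA
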